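import Pool.Agent.Lead.Odd3

set_option autoImplicit false

namespace Pool.Agent.Results.MP_636301_lc.Q1
open Pool.Agent.H11.PT Pool.Agent.Lead.Odd

theorem result : NPComplete OddPaths ∧
    (InNP (fun y => ¬ OddPaths y) ↔ ∀ L : List Bool → Prop, InNP L → InNP (fun w => ¬ L w)) :=
  ⟨⟨odd_np, odd_hard.npHard⟩, Pool.Agent.Lead.NPc.conp_iff odd_np odd_hard⟩

end Pool.Agent.Results.MP_636301_lc.Q1
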